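import Pool.Agent.Q60.DT.Var

/-!
# MP_a3c811_ag: the degrees of the local Euler factors of the powers of a variety

Let `p` be a prime, `ℓ, ℓ' ≠ p`, and `X` a smooth projective geometrically connected variety over `ℚ`
on whose cohomology the inertia group at `p` acts unipotently (for instance with semistable reduction
at `p`). The following are equivalent:

* for infinitely many `n` the local Euler factors `P^j_{p, ℓ} (h (X^n), T)` and
  `P^j_{p, ℓ'} (h (X^n), T)` have the same degree, for all `j`;
* the monodromy operators `N_ℓ` and `N_ℓ'` have the same Jordan blocks on `H^j (X)`, for all `j`;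
* for all `n` and `j` the Euler factors have the same degree and the monodromy operators have the same
  Jordan blocks on `H^j (X^n)`.

So the question of the independence of `ℓ` for the degrees of the Euler factors of infinitely many
powers of `X` already contains, and is equivalent to, the independence of `ℓ` of the whole Jordan type
of the monodromy.
-/

set_option autoImplicit false

open Module Filter Topology

universe v w v' w'

namespace Pool.Agent.Results.MP_a3c811_ag.DegreesOnPowers

open Pool.Agent.Q60.DT Pool.Agent.Q60.SS Pool.Agent.H914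

/-- **Degrees of Euler factors on powers and Jordan types of the monodromy.** -/
theorem result {Ω : Type w} [Field Ω] [CharZero Ω] [IsAlgClosed Ω] {Ω' : Type w'} [Field Ω']
    [CharZero Ω'] [IsAlgClosed Ω'] {T : InTheory.{v, w} Ω} {T' : InTheory.{v', w'} Ω'}
    (hT : T.IsKnown) (hT' : T'.IsKnown) (X : SmVar.{0} ℚ)
    (hbetti : ∀ j, T.betti X j = T'.betti X j) (hu : Unip (T.H X)) (hu' : Unip (T'.H X)) :
    ((∃ᶠ n in atTop, ∀ j, T.eulerDeg (pow X n) j = T'.eulerDeg (pow X n) j) ↔
      ∀ j k, T.kerN X j k = T'.kerN X j k) ∧
    ((∀ j k, T.kerN X j k = T'.kerN X j k) ↔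
      ∀ n j, T.eulerDeg (pow X n) j = T'.eulerDeg (pow X n) j ∧
        ∀ k, T.kerN (pow X n) j k = T'.kerN (pow X n) j k) := by
  obtain ⟨h1, h2⟩ := jordan_iff (R := fun n => T.H (pow X n)) (R' := fun n => T'.H (pow X n))
    (hT.coh X) (fun n => (hT.coh _).isInternal) (fun n => hT.kunneth X (pow X n)) hu (hT.conn X)
    (hT'.coh X) (fun n => (hT'.coh _).isInternal) (fun n => hT'.kunneth X (pow X n)) hu'
    (hT'.conn X) hbetti
  refine ⟨⟨h1, fun h => ?_⟩, h2, fun h => (fun j k => (h 0 j).2 k)⟩
  exact (Eventually.of_forall fun n j => (h2 h n j).1).frequently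

end Pool.Agent.Results.MP_a3c811_ag.DegreesOnPowers
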