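import Pool.Agent.Q154.NW.Gal

/-!
# MP_a3c811_ag : Euler factors and the numerical motive

`C` is a `ℚ`-linear rigid symmetric monoidal category with `End(1) = ℚ`; for each `l` in a set `L`,
`R l` is a symmetric monoidal additive functor to finite dimensional super vector spaces over a
field `K l` of characteristic zero, with a natural action of a group `G` on the part of one degree.
The case of the problem: `C` is the category of Chow motives over `ℚ` with rational coefficients,
`L` is the set of the primes `l ≠ p`, `R l` is `l`-adic cohomology, `G` is a decomposition group at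
`p`, `I` its inertia subgroup and `φ` a geometric Frobenius.

Let the numerical motives of the `N j` be independent direct summands of that of `M`, and let the
projectors to the degree `i` part be algebraic for the `N j` (as linear combinations with
coefficients in `K l`). Then the degree `i` part of `R l (M)` is the direct sum of those of the
`R l (N j)` and of a representation of `G`. It is not assumed that numerical and homological
equivalence are the same.
-/

set_option autoImplicit false

open CategoryTheory Limits MonoidalCategory

namespace Pool.Agent.Results.MP_a3c811_ag.NumericalSums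

open Pool.Agent.Y112.SR Pool.Agent.Q259.NCSign Pool.Agent.Q154.NS Pool.Agent.Q154.NW

universe v u w

/-- Let the numerical motives of the `N j` be independent direct summands of that of `M`, and let
the projectors to the given degree be algebraic for the `N j`.

1. For each `l` the sum of the Betti numbers of the `N j` in this degree is at most that of `M`,
and the product of the Euler factors of the `N j` divides the Euler factor of `M`.
2. If the sum of these Betti numbers is that of `M`, then the projector is algebraic for `M`, and
the Euler factor of `M` is the product of those of the `N j`.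
3. If the numerical motive of `M` is the direct sum of those of the `N j` and the projector is
algebraic for `M`, then the sum of the Betti numbers of the `N j` is that of `M`.
4. If the sum of the Betti numbers of the `N j` is that of `M` for all `l` and the Euler factors of
the `N j` are rational and independent of `l`, then so is the Euler factor of `M`. -/
theorem result {C : Type u} [Category.{v} C] [Preadditive C] [Linear ℚ C] [MonoidalCategory C]
    [SymmetricCategory C] [RightRigidCategory C]
    (hunit : ∀ c : 𝟙_ C ⟶ 𝟙_ C, ∃ q : ℚ, c = q • 𝟙 _)
    {L : Type} {K : L → Type w} [∀ l, Field (K l)] [∀ l, CharZero (K l)]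
    {R : ∀ l, SuperRealisation C (K l)} {G : Type} [Group G] (A : ∀ l, GalPart G (R l))
    (I : Subgroup G) (φ : G) (hI : ∀ g ∈ I, φ⁻¹ * g * φ ∈ I) (M : C) (k : ℕ)
    (N : Fin k → C) (i : ∀ j, N j ⟶ M) (r : ∀ j, M ⟶ N j) (h : NumSummands M N i r)
    (hC : ∀ l j, (A l).Algebraic (N j)) :
    (∀ l, ∑ j, (A l).betti (N j) ≤ (A l).betti M ∧
      ∏ j, (A l).euler I φ (N j) ∣ (A l).euler I φ M) ∧
    (∀ l, ∑ j, (A l).betti (N j) = (A l).betti M → (A l).Algebraic M ∧
      (A l).euler I φ M = ∏ j, (A l).euler I φ (N j)) ∧
    (NumTrivial (∑ j, r j ≫ i j - 𝟙 M) → ∀ l, (A l).Algebraic M →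
      ∑ j, (A l).betti (N j) = (A l).betti M) ∧
    ((∀ l, ∑ j, (A l).betti (N j) = (A l).betti M) → (∀ j, Indep A I φ (N j)) →
      Indep A I φ M) := by
  have hm := fun l => euler_main (A := A l) hI hunit h (hC l)
  refine ⟨fun l => ⟨(hm l).1, (hm l).2.1⟩, fun l => (hm l).2.2, fun hfull l hM => ?_,
    fun hd hN => ?_⟩
  · obtain ⟨P, hP⟩ := (A l).exists_part
    have hd : ∀ X, P.dim X = (A l).betti X := fun X => by
      rw [NatPart.dim, NatPart.space, hP, GalPart.betti]
    have h1 := dim_eq P hunit h (fun j => by rw [hP]; exact hC l j) hfull (by rw [hP]; exact hM)
    rw [← hd, ← h1]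
    exact Finset.sum_congr rfl fun j _ => (hd (N j)).symm
  · choose Q hQ using hN
    refine ⟨∏ j, Q j, fun l => ?_⟩
    rw [((hm l).2.2 (hd l)).2, Polynomial.map_prod]
    exact Finset.prod_congr rfl fun j _ => hQ j l

end Pool.Agent.Results.MP_a3c811_ag.NumericalSums
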