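import Pool.Agent.Q148.LI.Wt
import Mathlib.RepresentationTheory.FDRep
import Mathlib.NumberTheory.Padics.PadicNumbers
import Mathlib.FieldTheory.AbsoluteGaloisGroup
import Mathlib.RingTheory.Valuation.ValuationSubring

/-!
# Independence of `ℓ` of local Euler factors: one weight in the cohomology of the cubics `T(x, y, z) = 1`

Let `M` be the category of (pure) motives over `ℚ` for motivated cycles (André), which is abelian and
semisimple, `ω ℓ` the `ℓ`-adic realization and `D.G w j X` the motive `Gr^W_w H^j_c(X)` of a separated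
scheme `X` of finite type over `ℚ`; for a smooth projective scheme `Y` it is `h^j(Y)` for `w = j`, and zero
otherwise. Every Chow motive `(X, π, r)` has a direct factor of a Tate twist of `h^j(X)` as its motive of
degree `i` (`j = i + 2 r`), so that the question Q1 for Chow motives follows from (and is, if motivated
cycles are algebraic, equivalent to) the same statement for all direct factors of the motives `h^j(Y)`.

**Theorem.** The following are equivalent:

1. the local Euler factors of all direct factors of the motives `h^j(Y)`, `Y` smooth and projective over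
   `ℚ`, have rational coefficients and are independent of `ℓ`;
2. the same for all direct factors of the motives `Gr^W_w H^j_c(X)`, for all `X` and all `w`, `j`;
3. the same for all direct factors of the single piece `Gr^W_{j-1} H^j_c(T = 1)`, for all `j` and the
   smooth affine hypersurfaces `T(x, y, z) = 1` of all trilinear forms `T` over `ℚ`;
4. the same for the hypersurfaces `∑_{(i, j, l) ∈ H} x_i y_j z_l = 1` without coefficients, for all finite
   sets `H` of triples.
-/

set_option autoImplicit false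

open CategoryTheory CategoryTheory.Limits AlgebraicGeometry Pool.Agent.Y116.UV Pool.Agent.Z125.UN
  Pool.Agent.Q193.LT Pool.Agent.Q148.LI Polynomial

universe v u

namespace Pool.Agent.Results.MP_a3c811_ag.OneWeightOfCubics

/-- The absolute Galois group of `ℚ`. -/
abbrev G : Type := AlgebraicClosure ℚ ≃ₐ[ℚ] AlgebraicClosure ℚ

/-- Valuation rings of the field of algebraic numbers; those over `p` correspond to the decomposition
groups at `p`. -/
abbrev VR : Type := ValuationSubring (AlgebraicClosure ℚ)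

/-- `A` lies over `p`. -/
def Above (p : ℕ) (A : VR) : Prop := A.valuation (p : AlgebraicClosure ℚ) < 1

/-- `g` is in the inertia group: it acts trivially on the residue field. -/
def Inert (A : VR) (g : G) : Prop := ∀ x ∈ A, A.valuation (g x - x) < 1

/-- `g` is a lift of the Frobenius automorphism `x ↦ x ^ p` of the residue field. -/
def IsLift (p : ℕ) (A : VR) (g : G) : Prop := ∀ x ∈ A, A.valuation (g x - x ^ p) < 1

lemma lift_small {p : ℕ} (hp : p ≠ 0) {A : VR} {g : G} (h : IsLift p A g) {x : AlgebraicClosure ℚ}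
    (hx : A.valuation x < 1) : A.valuation (g x) < 1 := by
  have h1 : x ∈ A := (A.valuation_le_one_iff x).mp hx.le
  have h2 := h x h1
  have h3 : A.valuation (x ^ p) < 1 := by
    rw [map_pow]
    exact pow_lt_one₀ zero_le hx hp
  have h4 : g x = (g x - x ^ p) + x ^ p := by ring
  rw [h4]
  exact A.valuation.map_add_lt h2 h3

lemma lift_symm_mem {p : ℕ} (hp : p ≠ 0) {A : VR} {g : G} (h : IsLift p A g)
    {y : AlgebraicClosure ℚ} (hy : g y ∈ A) : y ∈ A := by
  by_contra hc
  have h0 : y ≠ 0 := fun h0 => hc (h0 ▸ A.zero_mem)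
  have h1 : 1 < A.valuation y := by
    rw [← not_le]
    exact fun h1 => hc ((A.valuation_le_one_iff y).mp h1)
  have h2 : A.valuation y⁻¹ < 1 := by
    rw [map_inv₀]
    exact inv_lt_one_of_one_lt₀ h1
  have h3 := lift_small hp h h2
  rw [map_inv₀, map_inv₀] at h3
  have h4 : g y ≠ 0 := fun h4 => h0 (g.injective (by rw [h4, map_zero]))
  have h5 : A.valuation (g y) ≤ 1 := (A.valuation_le_one_iff _).mpr hy
  have h6 : 0 < A.valuation (g y) := (A.valuation.pos_iff).mpr h4
  exact absurd h3 (not_lt.mpr ((one_le_inv₀ h6).mpr h5))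

/-- Conjugation by a Frobenius lift preserves the inertia group. -/
lemma inert_conj {p : ℕ} (hp : p ≠ 0) {A : VR} {f g : G} (h : IsLift p A f) (hg : Inert A g) :
    Inert A (f * g * f⁻¹) := by
  intro x hx
  obtain ⟨y, rfl⟩ := f.surjective x
  have hy : y ∈ A := lift_symm_mem hp h hx
  have h1 := lift_small hp h (hg y hy)
  have h2 : (f * g * f⁻¹) (f y) - f y = f (g y - y) := by
    have h3 : f⁻¹ (f y) = y := by
      rw [← AlgEquiv.mul_apply, inv_mul_cancel, AlgEquiv.one_apply]
    rw [AlgEquiv.mul_apply, AlgEquiv.mul_apply, h3, map_sub]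
  rw [h2]
  exact h1

section

variable {K : Type} [Field K] (V : FDRep.{0} K G)

/-- `v` is invariant under the inertia group. -/
def Fixed (A : VR) (v : V) : Prop := ∀ g, Inert A g → V.ρ g v = v

lemma fixed_zero (A : VR) : Fixed V A 0 := fun _ _ => map_zero _

lemma fixed_add {A : VR} {a b : V} (ha : Fixed V A a) (hb : Fixed V A b) : Fixed V A (a + b) :=
  fun g hg => by rw [map_add, ha g hg, hb g hg]

lemma fixed_smul {A : VR} (c : K) {a : V} (ha : Fixed V A a) : Fixed V A (c • a) :=
  fun g hg => by rw [map_smul, ha g hg]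

/-- The invariants of the inertia group. -/
def inv (A : VR) : Submodule K V where
  carrier := {v | Fixed V A v}
  zero_mem' := fixed_zero V A
  add_mem' := fixed_add V
  smul_mem' := fixed_smul V

lemma inv_stable {p : ℕ} (hp : p ≠ 0) {A : VR} {f : G} (h : IsLift p A f) :
    ∀ v ∈ inv V A, V.ρ f⁻¹ v ∈ inv V A := by
  intro v hv g hg
  have h1 : g * f⁻¹ = f⁻¹ * (f * g * f⁻¹) := by group
  have h2 := hv _ (inert_conj hp h hg)
  rw [← Module.End.mul_apply, ← map_mul, h1, map_mul, Module.End.mul_apply, h2]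

/-- The geometric Frobenius, the inverse of the lift `f` of the Frobenius automorphism, on the invariants
of the inertia group. -/
noncomputable def geomFrob {p : ℕ} (hp : p ≠ 0) {A : VR} {f : G} (h : IsLift p A f) :
    inv V A →ₗ[K] inv V A :=
  (V.ρ f⁻¹).restrict (inv_stable V hp h)

/-- The Euler factor `det(1 - T Frob)` on the invariants of the inertia group. (For an invertible
endomorphism this is the reversed characteristic polynomial.) -/
noncomputable def euler {p : ℕ} (hp : p ≠ 0) {A : VR} {f : G} (h : IsLift p A f) : K[X] :=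
  (geomFrob V hp h).charpoly.reverse

end

/-- The `ℓ`-adic realizations of a category of motives. -/
abbrev Real (M : Type u) [Category.{v} M] : Type (max u v 1) :=
  ∀ (ℓ : ℕ) [Fact ℓ.Prime], M ⥤ FDRep.{0} ℚ_[ℓ] G

variable {M : Type u} [Category.{v} M]

/-- At all primes `p` the Euler factors of `N` have rational coefficients and are the same for all
`ℓ ≠ p`. -/
def Indep (ω : Real M) (N : M) : Prop :=
  ∀ (p : ℕ) (hp : p.Prime) (A : VR), Above p A → ∀ (f : G) (hf : IsLift p A f),
    ∃ P : ℚ[X], ∀ (ℓ : ℕ) [Fact ℓ.Prime], ℓ ≠ p →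
      euler ((ω ℓ).obj N) hp.ne_zero hf = P.map (algebraMap ℚ ℚ_[ℓ])

/-- The same for all direct factors of `N`. -/
def IndepFactors (ω : Real M) (N : M) : Prop :=
  ∀ (L : M) (s : L ⟶ N) (r : N ⟶ L), s ≫ r = 𝟙 L → Indep ω L

variable [Abelian M]

/-- What is used about the category of motives.

* `wt`, `device`: the standard properties of `IsWt` and Jouanolou's device;
* `semisimple`: monomorphisms split (André);
* `twistMono`, `twistInv`: Tate twists are exact and invertible;
* `factor`: the Euler factor of the Tate twist `N(a)` is `P(p^{-a} T)`;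
* `top`: in the degrees `j ≥ 2 n` the cohomology of a closed subscheme of `𝔸^n` is zero or a Tate twist of
  an Artin motive, whose Euler factors (of the direct factors) are rational and independent of `ℓ`;
* `pure`: `Gr^W_w H^j_c(X)` is a direct factor of `h^w(Y)` for a smooth projective scheme `Y` (by
  resolution of singularities and semisimplicity). -/
structure IsKnown (D : WtData ℚ M) (ω : Real M) : Prop where
  wt : IsWt D
  device : Device D
  semisimple : ∀ {X Y : M} (f : X ⟶ Y), Mono f → ∃ r : Y ⟶ X, f ≫ r = 𝟙 X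
  twistMono : ∀ (a : ℤ) {X Y : M} (f : X ⟶ Y), Mono f → ∃ g : D.tw a X ⟶ D.tw a Y, Mono g
  twistInv : ∀ (a : ℤ) (X : M), Nonempty (D.tw (-a) (D.tw a X) ≅ X)
  factor : ∀ (a : ℤ) (N : M) (p : ℕ) (hp : p.Prime) (A : VR), Above p A → ∀ (f : G)
    (hf : IsLift p A f) (ℓ : ℕ) [Fact ℓ.Prime], ℓ ≠ p →
      euler ((ω ℓ).obj (D.tw a N)) hp.ne_zero hf =
        (euler ((ω ℓ).obj N) hp.ne_zero hf).comp (C ((p : ℚ_[ℓ]) ^ (-a)) * X)
  top : ∀ (n : ℕ) (I : Ideal (MvPolynomial (Fin n) ℚ)) (w j : ℤ), 2 * n ≤ j →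
    IndepFactors ω (D.G w j (aff ℚ (MvPolynomial (Fin n) ℚ ⧸ I)))
  pure : ∀ X : Sch ℚ, FT True X → ∀ w j, ∃ (Y : Sch ℚ) (s : D.G w j X ⟶ D.G w w Y)
    (r : D.G w w Y ⟶ D.G w j X), SmoothProj Y ∧ s ≫ r = 𝟙 _

variable {D : WtData ℚ M} {ω : Real M}

lemma map_scale (P : ℚ[X]) (p : ℕ) (a : ℤ) (ℓ : ℕ) [Fact ℓ.Prime] :
    (P.comp (C ((p : ℚ) ^ a) * X)).map (algebraMap ℚ ℚ_[ℓ]) =
      (P.map (algebraMap ℚ ℚ_[ℓ])).comp (C ((p : ℚ_[ℓ]) ^ a) * X) := by
  have h1 : algebraMap ℚ ℚ_[ℓ] ((p : ℚ) ^ a) = (p : ℚ_[ℓ]) ^ a := by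
    rw [map_zpow₀, map_natCast]
  rw [Polynomial.map_comp, Polynomial.map_mul, Polynomial.map_C, Polynomial.map_X, h1]

lemma indep_twist (h : IsKnown D ω) (a : ℤ) {N : M} (hN : Indep ω N) : Indep ω (D.tw a N) := by
  intro p hp A hA f hf
  obtain ⟨P, hP⟩ := hN p hp A hA f hf
  refine ⟨P.comp (C ((p : ℚ) ^ (-a)) * X), fun ℓ _ hℓ => ?_⟩
  rw [h.factor a N p hp A hA f hf ℓ hℓ, hP ℓ hℓ, map_scale]

lemma comp_scale {K : Type} [Field K] {c d : K} (hc : d * c = 1) (P : K[X]) :
    (P.comp (C c * X)).comp (C d * X) = P := by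
  rw [Polynomial.comp_assoc]
  have : (C c * X : K[X]).comp (C d * X) = X := by
    rw [Polynomial.mul_comp, Polynomial.C_comp, Polynomial.X_comp, ← mul_assoc, ← C_mul,
      mul_comm c d, hc, C_1, one_mul]
  rw [this, Polynomial.comp_X]

/-- Direct factors of twists. -/
lemma factors_twist (h : IsKnown D ω) (a : ℤ) {N : M} (hN : IndepFactors ω N) :
    IndepFactors ω (D.tw a N) := by
  intro L s r hsr
  have hs : Mono s := mono_of_mono_fac hsr
  obtain ⟨g, hg⟩ := h.twistMono (-a) s hs
  obtain ⟨e⟩ := h.twistInv a N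
  have h1 : Mono (g ≫ e.hom) := mono_comp _ _
  obtain ⟨r', hr'⟩ := h.semisimple (g ≫ e.hom) h1
  have h2 : Indep ω (D.tw (-a) L) := hN _ _ _ hr'
  -- compare `L` with `L(-a)`
  intro p hp A hA f hf
  obtain ⟨P, hP⟩ := h2 p hp A hA f hf
  refine ⟨P.comp (C ((p : ℚ) ^ (-a)) * X), fun ℓ _ hℓ => ?_⟩
  have hp0 : (p : ℚ_[ℓ]) ≠ 0 := by exact_mod_cast hp.ne_zero
  have h3 := h.factor (-a) L p hp A hA f hf ℓ hℓ
  rw [hP ℓ hℓ] at h3
  have h4 := congrArg (fun Q : ℚ_[ℓ][X] => Q.comp (C ((p : ℚ_[ℓ]) ^ (-a)) * X)) h3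
  simp only [neg_neg] at h4
  rw [comp_scale (by rw [← zpow_add₀ hp0, neg_add_cancel, zpow_zero])] at h4
  rw [← h4, map_scale]

lemma factors_iso {X Y : M} (e : X ≅ Y) (hY : IndepFactors ω Y) :
    IndepFactors ω X := fun L s r hsr =>
  hY L (s ≫ e.hom) (e.inv ≫ r) (by simp [hsr])

/-- The property `IndepFactors` passes to subobjects. -/
lemma isSub (h : IsKnown D ω) : IsSub D (IndepFactors ω) where
  mono := fun {X Y} f hf hY L s r hsr => by
    obtain ⟨t, ht⟩ := h.semisimple f hf
    refine hY L (s ≫ f) (t ≫ r) ?_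
    rw [Category.assoc, ← Category.assoc f t r, ht, Category.id_comp, hsr]
  twist := fun a N => ⟨fun h1 => by
    obtain ⟨e⟩ := h.twistInv a N
    exact factors_iso e.symm (factors_twist h (-a) h1), factors_twist h a⟩
  top := h.top

/-- **One weight decides.** See the explanations above. -/
theorem result (h : IsKnown D ω) :
    List.TFAE [
      ∀ Y : Sch ℚ, SmoothProj Y → ∀ j, IndepFactors ω (D.G j j Y),
      ∀ X : Sch ℚ, FT True X → ∀ w j, IndepFactors ω (D.G w j X),
      ∀ (a b c : ℕ) (T : Fin a → Fin b → Fin c → ℚ), ∀ j, IndepFactors ω (D.G (j - 1) j (hypS T)),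
      ∀ (a b c : ℕ) (H : Finset (Fin a × Fin b × Fin c)), ∀ j,
        IndepFactors ω (D.G (j - 1) j (tripS ℚ H))] := by
  have hsub := isSub h
  tfae_have 1 → 2 := fun h1 X hX w j => by
    obtain ⟨Y, s, r, hY, hsr⟩ := h.pure X hX w j
    have hs : Mono s := mono_of_mono_fac hsr
    exact hsub.mono s hs (h1 Y hY w)
  tfae_have 2 → 3 := fun h1 a b c T j => h1 _ (ft_aff True) _ _
  tfae_have 2 → 4 := fun h1 a b c H j => h1 _ (ft_aff True) _ _
  tfae_have 3 → 1 := fun h1 => one_piece h.wt hsub h.device h1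
  tfae_have 4 → 1 := fun h1 => one_piece_graph frac_rat h.wt hsub h.device h1
  tfae_finish

end Pool.Agent.Results.MP_a3c811_ag.OneWeightOfCubics
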