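import Pool.Agent.Q60.LI.Mot

/-!
# Euler factors of Steinberg and Artin twists of a motive and its Weil–Deligne representations

Let `W` be the Weil group of `ℚ_p` (of the group we only use the valuation `v` and the compactness of
the inertia group `v.ker`), `q = p`, and let `A ℓ` be the Weil–Deligne representation of
`V^i_ℓ(M)` for the primes `ℓ ≠ p`. Let `E` be an elliptic curve over `ℚ` with split multiplicative
reduction at `p`, so that `stn A j` belongs to `V^(i+j)_ℓ(M ⊗ h¹(E)^⊗j)`. For a finite extension `F`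
of `ℚ_p`, with Weil group `U` and geometric Frobenius `Φ`, the polynomial `P (t ℓ) h 1` is the Euler
factor over `F`; if `F` is the completion of a number field `L` with one place over `p`, the Euler
factor of the twist by the Artin motive `h(Spec L)` is obtained from it by `T ↦ T^f`. More generally
`P (t ℓ) h r` is the Frobenius polynomial on the space of the vectors killed by all products
`(g₁ - 1) ⋯ (g_r - 1)`, `g_i` in the inertia group of `F`.

1. For every `F` and every `k`: the Euler factors over `F` of the `M ⊗ h¹(E)^⊗j`, `j ≤ k`, are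
   rational and independent of `ℓ` if and only if the polynomials `P (t ℓ) h r`, `r ≤ k + 1`, are.
2. If this holds for all `F` and all `j`, the Weil–Deligne representations are compatible: for every
   element `w` of `W` of positive valuation and every `r`, the polynomial `det (1 - w T)` on
   `ker N^r` is rational and independent of `ℓ`.
-/

set_option autoImplicit false

namespace Pool.Agent.Results.MP_a3c811_ag.SteinbergAndArtinTwists

open Pool.Agent.Q60.LI

/-- **Euler factors of twists and compatibility of Weil–Deligne representations.** -/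
theorem result {ι : Type} {K : ι → Type} [∀ ℓ, Field (K ℓ)] [∀ ℓ, CharZero (K ℓ)] {W : Type}
    [Group W] [TopologicalSpace W] [IsTopologicalGroup W] {v : W →* Multiplicative ℤ}
    (hI : IsCompact (v.ker : Set W)) {q : ℕ} [Fact (0 < q)]
    {t : ∀ ℓ, W → K ℓ} (ht : ∀ ℓ, IsTame v (t ℓ)) (A : ∀ ℓ, Rep (K ℓ) v q) :
    (∀ (U : Subgroup W) (Φ : W) (h : IsFrob v U Φ), IsExt v U → ∀ k : ℕ,
      (∀ j ≤ k, Rat (fun ℓ => (stn A j ℓ).P (t ℓ) h 1)) ↔
        (∀ r ≤ k + 1, Rat (fun ℓ => (A ℓ).P (t ℓ) h r))) ∧
    (∀ J : Subgroup W, IsOpen (J : Set W) → J.Normal → J ≤ v.ker →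
      (∀ ℓ, ∀ g ∈ J, ∀ x, ap ((A ℓ).ρ g) x = x) →
      (∀ (U : Subgroup W) (Φ : W) (h : IsFrob v U Φ), IsExt v U → ∀ j : ℕ,
        Rat (fun ℓ => (stn A j ℓ).P (t ℓ) h 1)) →
      ∀ (w : W) (r : ℕ), 0 < val v w → Rat (fun ℓ => (A ℓ).char w r)) := by
  refine ⟨fun U Φ h hU k => main_rep hI ht hU h k A, ?_⟩
  intro J hJo hn hJ hρ hall w r hw
  have h1 : (fun ℓ => (A ℓ).char w r) = fun ℓ => (A ℓ).P (t ℓ) (frob_of hn hJ hw) r :=
    funext fun ℓ => char_eq hI (A ℓ) (ht ℓ) hJo hn hJ (hρ ℓ) hw r
  rw [h1]
  exact (main_rep hI ht (ext_of hJo hw) (frob_of hn hJ hw) r A).1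
    (fun j _ => hall _ _ _ (ext_of hJo hw) j) r (by omega)

end Pool.Agent.Results.MP_a3c811_ag.SteinbergAndArtinTwists
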